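import Pool.Agent.Helper13.BT.N6
import Pool.Agent.Helper13.BT.LevS

/-!
# Project BERTINI: the curves with a section form a thin set
-/

universe u

namespace Pool.Agent.BT

open Pool.Agent.Helper37.UL UL Pool.Agent.PL

/-- the key statement -/
theorem key_of_noe {k : Type u} [Field k] {p d r : ℕ} (hp : p.Prime) (hd : d = p * r)
    (hd3 : 3 ≤ d) {N t : ℕ} {ds : Fin t → ℕ} {U : Type} [Fintype U] {e : U → ℕ}
    {hh : ∀ u, MonV (N + 2) (e u) → k} (hNoe : NoeV ds hh) :
    Key k fun a : IxV (N + 2) d ds → k => HasSecV p (mainS a) (relS (othS a) hh) := by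
  intro F _ _ _ hF T q hT hq htop hfd κ hκ hs m w hw0 hw1
  by_contra hcon
  let J : Type u := {a : IxV (N + 2) d ds × Fin (m + 2) → F //
    HasSecV p (mainS (sysW w a)) (relS (othS (sysW w a)) hh)}
  refine no_family (J := J) (F := F) (k := k) (C := AlgebraicClosure k) hT hq htop hκ hs hp hd hd3
    hw0 hw1 hNoe (vv := Subtype.val) ?_ fun a =>
      hasLevV_of_hasSecV hF T hfd hp hd a.2 (AlgebraicClosure k)
  rw [Subtype.range_coe_subtype]
  exact hcon

/-- scaling -/
theorem hasSecV_smul {k : Type u} [Field k] {p N d t : ℕ} {ds : Fin t → ℕ} {U : Type}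
    {e : U → ℕ} {hh : ∀ u, MonV (N + 2) (e u) → k} (c : k) (a : IxV (N + 2) d ds → k)
    (h : HasSecV p (mainS a) (relS (othS a) hh)) :
    HasSecV p (mainS fun q => c * a q) (relS (othS fun q => c * a q) hh) := by
  have h1 := h.smul c (Sum.elim (fun _ => c) fun _ => 1)
  have h2 : (fun u q => Sum.elim (fun _ => c) (fun _ => 1) u * relS (othS a) hh u q) =
      relS (othS fun q => c * a q) hh := by
    funext u
    rcases u with s | u
    · rfl
    · funext q
      exact one_mul _
  rw [h2] at h1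
  exact h1

/-- **Linear systems of complete intersection curves: the curves with a Galois section form a thin set.** -/
theorem thin_curves {F k : Type u} [Field F] [CharZero F] [Field k] [Algebra F k]
    (hF : ∃ S : Finset F, Subfield.closure (S : Set F) = ⊤)
    (hk : ∃ S : Finset k, Subfield.closure (S : Set k) = ⊤) {p d : ℕ} (hp : p.Prime)
    (hpd : p ∣ d) (hd3 : 3 ≤ d) {m : ℕ} {w : Fin (m + 1) → k} {i j : Fin (m + 1)}
    (hT : Transcendental F (w i / w j)) {N t : ℕ} {ds : Fin t → ℕ} {U : Type} [Fintype U]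
    {e : U → ℕ} {hh : ∀ u, MonV (N + 2) (e u) → k} (hNoe : NoeV ds hh) :
    IsThin {a : IxV (N + 2) d ds × Fin (m + 1) → F |
      HasSecV p (mainS (sysW w a)) (relS (othS (sysW w a)) hh)} := by
  obtain ⟨r, hr⟩ := hpd
  exact thin_of_key (P := fun a : IxV (N + 2) d ds → k => HasSecV p (mainS a) (relS (othS a) hh))
    (fun c a _ h => hasSecV_smul c a h) (key_of_noe hp hr hd3 hNoe) hF hk hT

end Pool.Agent.BT
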