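import Pool.Agent.Helper13.BT.Lev
import Pool.Agent.Helper13.PL.NF4
import Pool.Agent.Helper37.BT.Desc

/-!
# Project BERTINI: Los for polynomial identities
-/

universe u v w

namespace Pool.Agent.BT

open Polynomial Pool.Agent.Helper37.UL

section los

variable {J : Type v} {U : Ultrafilter J} {R : Type u} [CommRing R] {S : Type w} [CommRing S]
  {θ : (J → R) →+* S} (hθ : ∀ g : J → R, θ g = 0 → ∀ᶠ a in (U : Filter J), g a = 0)

include hθ

theorem los_mv {σ : Type*} {P Q : MvPolynomial σ (J → R)}
    (hPQ : MvPolynomial.map θ P = MvPolynomial.map θ Q) : ∀ᶠ a in (U : Filter J),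
      MvPolynomial.map (Pi.evalRingHom (fun _ => R) a) P =
        MvPolynomial.map (Pi.evalRingHom (fun _ => R) a) Q := by
  have h1 : ∀ m ∈ (P - Q).support, ∀ᶠ a in (U : Filter J), (P - Q).coeff m a = 0 := by
    intro m _
    apply hθ
    have h2 := congrArg (MvPolynomial.coeff m) hPQ
    rw [MvPolynomial.coeff_map, MvPolynomial.coeff_map] at h2
    rw [MvPolynomial.coeff_sub, map_sub, h2, sub_self]
  have h2 : ∀ᶠ a in (U : Filter J), ∀ m ∈ (P - Q).support, (P - Q).coeff m a = 0 :=
    (Filter.eventually_all_finset (P - Q).support).mpr h1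
  filter_upwards [h2] with a ha
  rw [← sub_eq_zero, ← map_sub]
  ext m
  rw [MvPolynomial.coeff_map, MvPolynomial.coeff_zero]
  by_cases hm : m ∈ (P - Q).support
  · exact ha m hm
  · rw [MvPolynomial.notMem_support_iff.mp hm]
    rfl

theorem los_U {P Q : (J → R)[X]} (hPQ : P.map θ = Q.map θ) : ∀ᶠ a in (U : Filter J),
      P.map (Pi.evalRingHom (fun _ => R) a) = Q.map (Pi.evalRingHom (fun _ => R) a) := by
  have h1 : ∀ m ∈ (P - Q).support, ∀ᶠ a in (U : Filter J), (P - Q).coeff m a = 0 := by
    intro m _
    apply hθ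
    have h2 := congrArg (fun q => Polynomial.coeff q m) hPQ
    simp only [coeff_map] at h2
    rw [coeff_sub, map_sub, h2, sub_self]
  have h2 : ∀ᶠ a in (U : Filter J), ∀ m ∈ (P - Q).support, (P - Q).coeff m a = 0 :=
    (Filter.eventually_all_finset (P - Q).support).mpr h1
  filter_upwards [h2] with a ha
  rw [← sub_eq_zero, ← Polynomial.map_sub]
  ext m
  rw [coeff_map, coeff_zero]
  by_cases hm : m ∈ (P - Q).support
  · exact ha m hm
  · rw [notMem_support_iff.mp hm]
    rfl

theorem los_YX {P Q : (J → R)[X][X]} (hPQ : P.map (mapRingHom θ) = Q.map (mapRingHom θ)) :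
    ∀ᶠ a in (U : Filter J), P.map (mapRingHom (Pi.evalRingHom (fun _ => R) a)) =
      Q.map (mapRingHom (Pi.evalRingHom (fun _ => R) a)) := by
  have h1 : ∀ m ∈ (P - Q).support, ∀ᶠ a in (U : Filter J),
      ((P - Q).coeff m).map (Pi.evalRingHom (fun _ => R) a) = 0 := by
    intro m _
    have h2 := congrArg (fun q => Polynomial.coeff q m) hPQ
    simp only [coeff_map, coe_mapRingHom] at h2
    have h3 := los_U hθ (P := (P - Q).coeff m) (Q := 0) (by
      rw [coeff_sub, Polynomial.map_sub, h2, sub_self, Polynomial.map_zero])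
    filter_upwards [h3] with a ha
    rw [ha, Polynomial.map_zero]
  have h2 : ∀ᶠ a in (U : Filter J), ∀ m ∈ (P - Q).support,
      ((P - Q).coeff m).map (Pi.evalRingHom (fun _ => R) a) = 0 :=
    (Filter.eventually_all_finset (P - Q).support).mpr h1
  filter_upwards [h2] with a ha
  rw [← sub_eq_zero, ← Polynomial.map_sub]
  apply Polynomial.ext
  intro m
  rw [coeff_map, coeff_zero, coe_mapRingHom]
  by_cases hm : m ∈ (P - Q).support
  · exact ha m hm
  · rw [notMem_support_iff.mp hm, Polynomial.map_zero]

/-- the product identity -/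
theorem ev_prod {m d n nW nH nH' nf p : ℕ} {V : Type} [Fintype V] {e : V → ℕ}
    {G : J → Fin d → MonV m n → R} {W : J → MonV m nW → R}
    {H : J → MonV m nH → R} {H' : J → V → MonV m nH' → R} {f : J → MonV m nf → R}
    {rel : J → ∀ u, MonV m (e u) → R} {T : R}
    (hi : ∏ i, pol (fun q => θ fun a => G a i q) = MvPolynomial.C (θ fun _ => T) *
      pol (fun q => θ fun a => W a q) ^ p +
      comb (fun q => θ fun a => f a q) (fun u q => θ fun a => rel a u q)
        (fun q => θ fun a => H a q) (fun u q => θ fun a => H' a u q)) :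
    ∀ᶠ a in (U : Filter J), ∏ i, pol (G a i) = MvPolynomial.C T * pol (W a) ^ p +
      comb (f a) (rel a) (H a) (H' a) := by
  have h1 := los_mv hθ (P := ∏ i, pol (fun q a => G a i q))
    (Q := MvPolynomial.C (fun _ => T) * pol (fun q a => W a q) ^ p +
      comb (fun q a => f a q) (fun u q a => rel a u q) (fun q a => H a q)
        (fun u q a => H' a u q)) (by
    rw [map_prod, map_add, map_mul, map_pow, MvPolynomial.map_C, map_pol, map_comb]
    simp only [map_pol θ]
    exact hi)
  filter_upwards [h1] with a ha
  rw [map_prod, map_add, map_mul, map_pow, MvPolynomial.map_C, map_pol, map_comb] at ha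
  simp only [map_pol] at ha
  exact ha

/-- an identity `A G + B G' + comb = monomial` -/
theorem ev_cop {m n n' nf nA nB nD nD' : ℕ} {V : Type} [Fintype V] {e : V → ℕ}
    {G : J → MonV m n → R} {G' : J → MonV m n' → R}
    {f : J → MonV m nf → R} {rel : J → ∀ u, MonV m (e u) → R} {A : J → MonV m nA → R}
    {B : J → MonV m nB → R} {H : J → MonV m nD → R} {H' : J → V → MonV m nD' → R}
    {q : Fin m →₀ ℕ}
    (hi : pol (fun q => θ fun a => A a q) * pol (fun q => θ fun a => G a q) +
      pol (fun q => θ fun a => B a q) * pol (fun q => θ fun a => G' a q) +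
      comb (fun q => θ fun a => f a q) (fun u q => θ fun a => rel a u q)
        (fun q => θ fun a => H a q) (fun u q => θ fun a => H' a u q) =
      MvPolynomial.monomial q 1) :
    ∀ᶠ a in (U : Filter J), pol (A a) * pol (G a) + pol (B a) * pol (G' a) +
      comb (f a) (rel a) (H a) (H' a) = MvPolynomial.monomial q 1 := by
  have h1 := los_mv hθ (P := pol (fun q a => A a q) * pol (fun q a => G a q) +
    pol (fun q a => B a q) * pol (fun q a => G' a q) +
    comb (fun q a => f a q) (fun u q a => rel a u q) (fun q a => H a q)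
        (fun u q a => H' a u q)) (Q := MvPolynomial.monomial q 1) (by
    rw [map_add, map_add, map_mul, map_mul, map_pol, map_pol, map_pol, map_pol, map_comb, hi,
      MvPolynomial.map_monomial, map_one θ])
  filter_upwards [h1] with a ha
  rw [map_add, map_add, map_mul, map_mul, map_pol, map_pol, map_pol, map_pol, map_comb,
      MvPolynomial.map_monomial, map_one (Pi.evalRingHom (fun _ => R) a)] at ha
  exact ha

/-- an identity `D G + comb = c(x)` -/
theorem ev_nrm {N n nf nD nD' nD'' nM : ℕ} {V : Type} [Fintype V] {e : V → ℕ}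
    {G : J → MonV (N + 2) n → R} {f : J → MonV (N + 2) nf → R}
    {rel : J → ∀ u, MonV (N + 2) (e u) → R}
    {D : J → MonV (N + 2) nD → R} {D' : J → MonV (N + 2) nD' → R}
    {D'' : J → V → MonV (N + 2) nD'' → R} {c : J → Fin (nM + 1) → R}
    (hi : pol (fun q => θ fun a => D a q) * pol (fun q => θ fun a => G a q) +
      comb (fun q => θ fun a => f a q) (fun u q => θ fun a => rel a u q)
        (fun q => θ fun a => D' a q) (fun u q => θ fun a => D'' a u q) =
      polX (fun q => θ fun a => c a q)) :
    ∀ᶠ a in (U : Filter J), pol (D a) * pol (G a) + comb (f a) (rel a) (D' a) (D'' a) =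
      polX (c a) := by
  have h1 := los_mv hθ (P := pol (fun q a => D a q) * pol (fun q a => G a q) +
    comb (fun q a => f a q) (fun u q a => rel a u q) (fun q a => D' a q)
        (fun u q a => D'' a u q)) (Q := polX (fun q a => c a q)) (by
    rw [map_add, map_mul, map_pol, map_pol, map_comb, map_polX, hi])
  filter_upwards [h1] with a ha
  rw [map_add, map_mul, map_pol, map_pol, map_comb, map_polX] at ha
  exact ha

/-- the equations of the coordinates -/
theorem ev_sub {N nf nD nD' ρ n e₂ : ℕ} {V : Type} [Fintype V] {e : V → ℕ}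
    {f : J → MonV (N + 2) nf → R}
    {rel : J → ∀ u, MonV (N + 2) (e u) → R}
    {H : J → MonV (N + 2) nD → R} {H' : J → V → MonV (N + 2) nD' → R} {v : Fin (N + 2)}
    {s : J → Fin ρ → Fin (n + 1) → R}
    (hi : subV N v (monYX fun j i => θ fun a => s a j i) ^ e₂ =
      comb (fun q => θ fun a => f a q) (fun u q => θ fun a => rel a u q)
        (fun q => θ fun a => H a q) (fun u q => θ fun a => H' a u q)) :
    ∀ᶠ a in (U : Filter J), subV N v (monYX (s a)) ^ e₂ = comb (f a) (rel a) (H a) (H' a) := by
  have h1 := los_mv hθ (P := subV N v (monYX fun j i a => s a j i) ^ e₂)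
    (Q := comb (fun q a => f a q) (fun u q a => rel a u q) (fun q a => H a q)
        (fun u q a => H' a u q)) (by
    rw [map_pow, map_subV, map_monYX, map_comb, hi])
  filter_upwards [h1] with a ha
  rw [map_pow, map_subV, map_monYX, map_comb] at ha
  exact ha

/-- the separability of `R` -/
theorem ev_sepU {M₁ : ℕ} {Q V V' : J → Fin (M₁ + 1) → R}
    (hi : polU (fun i => θ fun a => V a i) * polU (fun i => θ fun a => Q a i) +
      polU (fun i => θ fun a => V' a i) * derivative (polU (fun i => θ fun a => Q a i)) = 1) :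
    ∀ᶠ a in (U : Filter J), polU (V a) * polU (Q a) + polU (V' a) * derivative (polU (Q a)) = 1 := by
  have h1 := los_U hθ (P := polU (fun i a => V a i) * polU (fun i a => Q a i) +
    polU (fun i a => V' a i) * derivative (polU (fun i a => Q a i))) (Q := 1) (by
    rw [Polynomial.map_add, Polynomial.map_mul, Polynomial.map_mul, ← derivative_map, map_polU,
      map_polU, map_polU, hi, Polynomial.map_one])
  filter_upwards [h1] with a ha
  rw [Polynomial.map_add, Polynomial.map_mul, Polynomial.map_mul, ← derivative_map, map_polU,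
      map_polU, map_polU, Polynomial.map_one] at ha
  exact ha

/-- the discriminants -/
theorem ev_discU {M₁ M₂ ρ e₁ : ℕ} {Q : J → Fin (M₁ + 1) → R}
    {s : J → Fin ρ → Fin (M₂ + 1) → R} {A B : J → Fin (M₂ + 1) → Fin (M₂ + 1) → R}
    (hi : polYX (fun j i => θ fun a => A a j i) * monYX (fun j i => θ fun a => s a j i) +
      polYX (fun j i => θ fun a => B a j i) *
        derivative (monYX (fun j i => θ fun a => s a j i)) =
        C (polU (fun i => θ fun a => Q a i) ^ e₁)) :
    ∀ᶠ a in (U : Filter J), polYX (A a) * monYX (s a) + polYX (B a) * derivative (monYX (s a)) =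
      C (polU (Q a) ^ e₁) := by
  have h1 := los_YX hθ (P := polYX (fun j i a => A a j i) * monYX (fun j i a => s a j i) +
      polYX (fun j i a => B a j i) * derivative (monYX (fun j i a => s a j i)))
      (Q := C (polU (fun i a => Q a i) ^ e₁)) (by
    rw [Polynomial.map_add, Polynomial.map_mul, Polynomial.map_mul, ← derivative_map, map_polYX,
      map_polYX, map_monYX, hi, map_C, coe_mapRingHom, Polynomial.map_pow, map_polU])
  filter_upwards [h1] with a ha
  rw [Polynomial.map_add, Polynomial.map_mul, Polynomial.map_mul, ← derivative_map, map_polYX,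
      map_polYX, map_monYX, map_C, coe_mapRingHom, Polynomial.map_pow, map_polU] at ha
  exact ha

end los

section desc

variable {F : Type u} {L : Type v} [Field F] [Field L] [Algebra F L]

/-- combinations descend -/
theorem comb_descend {m nf nD nD' : ℕ} {V : Type} [Fintype V] {e : V → ℕ}
    {P : MvPolynomial (Fin m) F} {f : MonV m nf → F} {rel : ∀ u, MonV m (e u) → F}
    {H : MonV m nD → L} {H' : V → MonV m nD' → L}
    (h : MvPolynomial.map (algebraMap F L) P =
      comb (fun q => algebraMap F L (f q)) (fun u q => algebraMap F L (rel u q)) H H') :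
    ∃ (H₀ : MonV m nD → F) (H₀' : V → MonV m nD' → F), P = comb f rel H₀ H₀' := by
  classical
  obtain ⟨π, hπ⟩ := (Algebra.linearMap F L).exists_leftInverse_of_injective
    (LinearMap.ker_eq_bot.2 (algebraMap F L).injective)
  have hπ1 : ∀ c : F, π (algebraMap F L c) = c := fun c => congrArg (fun l : F →ₗ[F] F => l c) hπ
  refine ⟨fun a => π (H a), fun u a => π (H' u a), ?_⟩
  ext s
  have h1 := congrArg (fun P => π (MvPolynomial.coeff s P)) h
  simp only [comb, MvPolynomial.coeff_add, map_add, MvPolynomial.coeff_sum, map_sum,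
    MvPolynomial.coeff_map, hπ1] at h1 ⊢
  rw [h1, coeff_mul_retract π (P := pol H) (coeff_pol_retract π H)]
  simp only [coeff_mul_retract π (coeff_pol_retract π (H' _)), map_pol]

end desc

end Pool.Agent.BT
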