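import Pool.Agent.Helper37.BT.Defs

/-!
# Project BERTINI: the equations of the coordinates over the line

`polU c` is the polynomial in `X` with coefficients `c`, `polYX a` the polynomial in `Y` over `R[X]` with the
coefficients `polU (a j)`, `monYX s` the monic polynomial `Y ^ ρ + ∑ polU (s j) Y ^ j`; `subV N v` is the substitution
`X = x = X 0`, `Y = x_v`.
-/

universe u v

namespace Pool.Agent.BT

open Polynomial

/-- polynomials in `X` -/
noncomputable def polU {R : Type u} [Semiring R] {n : ℕ} (c : Fin (n + 1) → R) : R[X] :=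
  ∑ i, C (c i) * X ^ (i : ℕ)

/-- polynomials in `Y` over `R[X]` -/
noncomputable def polYX {R : Type u} [Semiring R] {m n : ℕ} (a : Fin (m + 1) → Fin (n + 1) → R) :
    R[X][X] :=
  ∑ j, C (polU (a j)) * X ^ (j : ℕ)

/-- monic polynomials in `Y` over `R[X]` -/
noncomputable def monYX {R : Type u} [Semiring R] {ρ n : ℕ} (s : Fin ρ → Fin (n + 1) → R) :
    R[X][X] :=
  X ^ ρ + ∑ j, C (polU (s j)) * X ^ (j : ℕ)

/-- the substitution `X = x`, `Y = x_v` -/
noncomputable def subV {R : Type u} [CommSemiring R] (N : ℕ) (v : Fin (N + 2)) :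
    R[X][X] →+* MvPolynomial (Fin (N + 2)) R :=
  eval₂RingHom (aeval (MvPolynomial.X 0) : R[X] →ₐ[R] MvPolynomial (Fin (N + 2)) R).toRingHom
    (MvPolynomial.X v)

end Pool.Agent.BT
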