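import Pool.Agent.Helper37.BT.Defs
import Pool.Agent.Helper91.Section.Basic

/-!
# Project BERTINI, block K: the functions `(G_i / G_j) ^ (1 / p)` are unramified
-/

universe u v

namespace Pool.Agent.BT

open MvPolynomial Pool.Agent.Helper91.Sect

section val

variable {R : Type u} {Ω : Type v} [Field R] [Field Ω] [Algebra R Ω]

theorem aeval_pol {n D : ℕ} (g : MonV n D → R) (x : Fin n → Ω) :
    aeval x (pol g) = ∑ q : MonV n D, algebraMap R Ω (g q) * q.1.prod fun i e => x i ^ e := by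
  unfold pol
  rw [map_sum]
  exact Finset.sum_congr rfl fun q _ => aeval_monomial _ _ _

theorem aeval_comb {n d a b : ℕ} {U : Type} [Fintype U] {e : U → ℕ} {f : MonV n d → R}
    {rel : ∀ u, MonV n (e u) → R} {H : MonV n a → R} {H' : U → MonV n b → R} {x : Fin n → Ω}
    (hf : aeval x (pol f) = 0) (hrel : ∀ u, aeval x (pol (rel u)) = 0) :
    aeval x (comb f rel H H') = 0 := by
  unfold comb
  rw [map_add, map_mul, hf, mul_zero, zero_add, map_sum]
  refine Finset.sum_eq_zero fun u _ => ?_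
  rw [map_mul, hrel, mul_zero]

variable {V : ValuationSubring Ω} (hV : ∀ c : R, algebraMap R Ω c ∈ V) {n : ℕ} {x : Fin n → Ω}
  {b₀ : Ω} (h1 : 1 ≤ V.valuation b₀) (hx : ∀ v, V.valuation (x v) ≤ V.valuation b₀)

include hx in
omit [Algebra R Ω] [Field R] in
theorem val_prod_le (s : Fin n →₀ ℕ) :
    V.valuation (s.prod fun i e => x i ^ e) ≤ V.valuation b₀ ^ s.degree := by
  rw [Finsupp.prod, map_prod, Finsupp.degree_apply, ← Finset.prod_pow_eq_pow_sum]
  refine Finset.prod_le_prod' fun i _ => ?_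
  rw [map_pow]
  exact pow_le_pow_left' (hx i) _

include hV h1 hx in
theorem val_pol_le {D : ℕ} (g : MonV n D → R) :
    V.valuation (aeval x (pol g)) ≤ V.valuation b₀ ^ D := by
  rw [aeval_pol]
  refine V.valuation.map_sum_le fun q _ => ?_
  rw [map_mul]
  calc V.valuation (algebraMap R Ω (g q)) * V.valuation (q.1.prod fun i e => x i ^ e)
      ≤ 1 * V.valuation b₀ ^ q.1.degree :=
        mul_le_mul' ((V.valuation_le_one_iff _).2 (hV _)) (val_prod_le hx _)
    _ = V.valuation b₀ ^ q.1.degree := one_mul _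
    _ ≤ V.valuation b₀ ^ D := pow_le_pow_right' h1 q.2

end val

section val2

variable {R : Type u} {Ω : Type v} [Field R] [Field Ω] [Algebra R Ω]
  {V : ValuationSubring Ω} (hV : ∀ c : R, algebraMap R Ω c ∈ V) {N : ℕ} {x : Fin (N + 2) → Ω}
  {b₀ : Ω} (h1 : 1 ≤ V.valuation b₀) (hx : ∀ v, V.valuation (x v) ≤ V.valuation b₀)

include hV h1 hx in
theorem val_eq_or {n d M : ℕ} (hb : b₀ = 1 ∨ ∃ v, b₀ = x v) (hnM : n ≤ M)
    {U : Type} [Fintype U] {e : U → ℕ} {G G' : MonV (N + 2) n → R} {f : MonV (N + 2) d → R}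
    {rel : ∀ u, MonV (N + 2) (e u) → R} (hcop : Cop G G' f rel M)
    (hf : aeval x (pol f) = 0) (hrel : ∀ u, aeval x (pol (rel u)) = 0) :
    V.valuation (aeval x (pol G)) = V.valuation b₀ ^ n ∨
      V.valuation (aeval x (pol G')) = V.valuation b₀ ^ n := by
  have hb0 : 0 < V.valuation b₀ := lt_of_lt_of_le zero_lt_one h1
  -- a monomial of the largest value
  have hq : ∃ q : MonV (N + 2) M, V.valuation (aeval x (monomial q.1 (1 : R))) =
      V.valuation b₀ ^ M := by
    rcases hb with rfl | ⟨v, rfl⟩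
    · refine ⟨⟨0, by simp⟩, ?_⟩
      rw [aeval_monomial]
      simp
    · refine ⟨⟨Finsupp.single v M, by simp⟩, ?_⟩
      rw [aeval_monomial]
      simp
  obtain ⟨q, hq⟩ := hq
  obtain ⟨A, B, H, H', hABD⟩ := hcop q
  have h2 := congrArg (aeval x) hABD
  rw [map_add, map_add, map_mul, map_mul, aeval_comb hf hrel, add_zero] at h2
  have hA := val_pol_le hV h1 hx A
  have hB := val_pol_le hV h1 hx B
  have h3 : V.valuation b₀ ^ M ≤ max (V.valuation b₀ ^ (M - n) * V.valuation (aeval x (pol G)))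
      (V.valuation b₀ ^ (M - n) * V.valuation (aeval x (pol G'))) := by
    rw [← hq, ← h2]
    refine (V.valuation.map_add _ _).trans (max_le_max ?_ ?_)
    · rw [map_mul]; exact mul_le_mul' hA le_rfl
    · rw [map_mul]; exact mul_le_mul' hB le_rfl
  have h4 : V.valuation b₀ ^ M = V.valuation b₀ ^ (M - n) * V.valuation b₀ ^ n := by
    rw [← pow_add, Nat.sub_add_cancel hnM]
  have hpos : 0 < V.valuation b₀ ^ (M - n) := pow_pos hb0 _
  rw [h4] at h3
  rcases le_max_iff.1 h3 with h5 | h5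
  · exact Or.inl (le_antisymm (val_pol_le hV h1 hx G) ((mul_le_mul_iff_right₀ hpos).1 h5))
  · exact Or.inr (le_antisymm (val_pol_le hV h1 hx G') ((mul_le_mul_iff_right₀ hpos).1 h5))

omit [Algebra R Ω] [Field R] in
theorem exists_b0 (V : ValuationSubring Ω) {n : ℕ} (x : Fin n → Ω) :
    ∃ b₀ : Ω, (b₀ = 1 ∨ ∃ v, b₀ = x v) ∧
      1 ≤ V.valuation b₀ ∧ ∀ v, V.valuation (x v) ≤ V.valuation b₀ := by
  classical
  obtain ⟨o, -, ho⟩ := Finset.exists_max_image (Finset.univ : Finset (Option (Fin n)))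
    (fun o => V.valuation (o.elim 1 x)) ⟨none, Finset.mem_univ _⟩
  refine ⟨o.elim 1 x, ?_, ?_, ?_⟩
  · rcases o with _ | v
    · exact Or.inl rfl
    · exact Or.inr ⟨v, rfl⟩
  · have h1 := ho none (Finset.mem_univ _)
    change V.valuation 1 ≤ _ at h1
    rwa [map_one] at h1
  · exact fun v => ho (some v) (Finset.mem_univ _)

include hV in
/-- the value of `G_i / G_j` is the `p`-th power of the value of a function -/
theorem exists_val {n d p r M a b : ℕ} (hd : d = p * r) (hnM : n ≤ M) {U : Type} [Fintype U]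
    {e : U → ℕ} {f : MonV (N + 2) d → R} {rel : ∀ u, MonV (N + 2) (e u) → R}
    (hf : aeval x (pol f) = 0) (hrel : ∀ u, aeval x (pol (rel u)) = 0)
    {G : Fin d → MonV (N + 2) n → R} {W : MonV (N + 2) (r * n) → R}
    {H : MonV (N + 2) a → R} {H' : U → MonV (N + 2) b → R} {T : R} (hT : T ≠ 0)
    (hprod : ∏ i, pol (G i) = C T * pol W ^ p + comb f rel H H')
    (hcop : ∀ i j, i ≠ j → Cop (G i) (G j) f rel M)
    (hG0 : ∀ i, aeval x (pol (G i)) ≠ 0) {i j : Fin d} (hij : i ≠ j) :
    ∃ b : Ω, (∀ σ : Ω →+* Ω, (∀ c : R, σ (algebraMap R Ω c) = algebraMap R Ω c) →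
        (∀ v, σ (x v) = x v) → σ b = b) ∧
      V.valuation (aeval x (pol (G i))) = V.valuation b ^ p * V.valuation (aeval x (pol (G j))) := by
  classical
  obtain ⟨b₀, hb, h1, hx⟩ := exists_b0 V x
  have hb0 : V.valuation b₀ ≠ 0 := (lt_of_lt_of_le zero_lt_one h1).ne'
  have hp1 := congrArg (aeval x) hprod
  rw [map_prod, map_add, map_mul, aeval_comb hf hrel, add_zero, map_pow, aeval_C] at hp1
  set w := aeval x (pol W) with hw
  have hTv : V.valuation (algebraMap R Ω T) = 1 := by
    refine le_antisymm ((V.valuation_le_one_iff _).2 (hV _)) ?_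
    have h2 := (V.valuation_le_one_iff _).2 (hV T⁻¹)
    rw [map_inv₀, map_inv₀] at h2
    have h3 : V.valuation (algebraMap R Ω T) ≠ 0 :=
      (Valuation.ne_zero_iff _).2 (by rwa [Ne, map_eq_zero])
    exact (inv_le_one₀ (zero_lt_iff.2 h3)).1 h2
  have hp2 : ∏ i, V.valuation (aeval x (pol (G i))) = V.valuation w ^ p := by
    rw [← map_prod, hp1, map_mul, map_pow, hTv, one_mul]
  have hw0 : V.valuation w ≠ 0 := by
    intro h0
    rw [h0] at hp2
    have hp0 : p ≠ 0 := by
      rintro rfl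
      rw [zero_mul] at hd
      subst hd
      exact i.elim0
    rw [zero_pow hp0] at hp2
    obtain ⟨l, -, hl⟩ := Finset.prod_eq_zero_iff.1 hp2
    exact hG0 l ((Valuation.zero_iff _).1 hl)
  have hfix : ∀ σ : Ω →+* Ω, (∀ c : R, σ (algebraMap R Ω c) = algebraMap R Ω c) →
      (∀ v, σ (x v) = x v) → σ b₀ = b₀ ∧ σ w = w := by
    intro σ hσ hσx
    constructor
    · rcases hb with rfl | ⟨v, rfl⟩
      · exact map_one σ
      · exact hσx v
    · rw [hw, aeval_pol, map_sum]
      refine Finset.sum_congr rfl fun q _ => ?_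
      rw [map_mul, hσ, Finsupp.prod, map_prod]
      congr 1
      refine Finset.prod_congr rfl fun v _ => ?_
      rw [map_pow, hσx]
  -- the product of the values when one is small
  have hsmall : ∀ l : Fin d, V.valuation (aeval x (pol (G l))) ≠ V.valuation b₀ ^ n →
      ∀ l', l' ≠ l → V.valuation (aeval x (pol (G l'))) = V.valuation b₀ ^ n := by
    intro l hl l' hl'
    rcases val_eq_or hV h1 hx hb hnM (hcop l l' (Ne.symm hl')) hf hrel with h | h
    · exact absurd h hl
    · exact h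
  have hprodl : ∀ l : Fin d, V.valuation (aeval x (pol (G l))) ≠ V.valuation b₀ ^ n →
      V.valuation (aeval x (pol (G l))) * (V.valuation b₀ ^ n) ^ (d - 1) =
        V.valuation w ^ p := by
    intro l hl
    rw [← hp2, ← Finset.mul_prod_erase Finset.univ _ (Finset.mem_univ l)]
    congr 1
    rw [Finset.prod_congr rfl (fun l' hl' => hsmall l hl l' (Finset.mem_erase.1 hl').1),
      Finset.prod_const, Finset.card_erase_of_mem (Finset.mem_univ l), Finset.card_univ,
      Fintype.card_fin]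
  have hd0 : 0 < d := lt_of_le_of_lt (Nat.zero_le _) i.2
  have hpow : (V.valuation b₀ ^ n) ^ (d - 1) * V.valuation b₀ ^ n =
      (V.valuation b₀ ^ (r * n)) ^ p := by
    rw [← pow_succ, Nat.sub_add_cancel hd0, ← pow_mul, ← pow_mul, hd]
    congr 1
    ring
  by_cases hi : V.valuation (aeval x (pol (G i))) = V.valuation b₀ ^ n
  · by_cases hj : V.valuation (aeval x (pol (G j))) = V.valuation b₀ ^ n
    · refine ⟨1, fun σ _ _ => map_one σ, ?_⟩
      rw [hi, hj, map_one, one_pow, one_mul]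
    · refine ⟨b₀ ^ (r * n) / w, fun σ hσ hσx => ?_, ?_⟩
      · rw [map_div₀, map_pow, (hfix σ hσ hσx).1, (hfix σ hσ hσx).2]
      · have h2 := hprodl j hj
        have h3 : V.valuation (aeval x (pol (G j))) ≠ 0 := (Valuation.ne_zero_iff _).2 (hG0 j)
        rw [hi, map_div₀, map_pow, div_pow, ← h2, ← hpow]
        field_simp
  · refine ⟨w / b₀ ^ (r * n), fun σ hσ hσx => ?_, ?_⟩
    · rw [map_div₀, map_pow, (hfix σ hσ hσx).1, (hfix σ hσ hσx).2]
    · have h2 := hprodl i hi
      rw [hsmall i hi j (Ne.symm hij), map_div₀, map_pow, div_pow, ← h2, ← hpow]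
      field_simp

end val2

section kur

variable {k K : Type u} [Field k] [Field K] [Algebra k K]

/-- the values at the point with coordinates `x` -/
noncomputable def evP {n D : ℕ} (x : Fin n → K) (g : MonV n D → kbar k K) : AlgebraicClosure K :=
  aeval (fun v => algebraMap K (AlgebraicClosure K) (x v)) (pol g)

/-- **The functions `(G_i / G_j) ^ (1 / p)` are unramified.** -/
theorem root_mem_Kur {N n d p r M a b : ℕ} {x : Fin (N + 2) → K} (hp : 0 < p) (hd : d = p * r)
    (hnM : n ≤ M) {U : Type} [Fintype U] {e : U → ℕ} {f : MonV (N + 2) d → kbar k K}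
    {rel : ∀ u, MonV (N + 2) (e u) → kbar k K} (hf : evP x f = 0) (hrel : ∀ u, evP x (rel u) = 0)
    {G : Fin d → MonV (N + 2) n → kbar k K} {W : MonV (N + 2) (r * n) → kbar k K}
    {H : MonV (N + 2) a → kbar k K} {H' : U → MonV (N + 2) b → kbar k K} {T : kbar k K}
    (hT : T ≠ 0) (hprod : ∏ i, pol (G i) = C T * pol W ^ p + comb f rel H H')
    (hcop : ∀ i j, i ≠ j → Cop (G i) (G j) f rel M)
    (hG0 : ∀ i, evP x (G i) ≠ 0) {i j : Fin d} (hij : i ≠ j) {w : AlgebraicClosure K}
    (hw : w ^ p * evP x (G j) = evP x (G i)) : w ∈ Kur k K := by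
  intro V hV σ hσ
  have hV' : ∀ c : kbar k K, algebraMap (kbar k K) (AlgebraicClosure K) c ∈ V := fun c =>
    const_mem hV (mem_algebraicClosure_iff.1 c.2)
  obtain ⟨b, hb, hval⟩ := exists_val hV' hd hnM hf hrel hT hprod hcop hG0 hij
  have hσc : ∀ c : kbar k K, σ (algebraMap (kbar k K) (AlgebraicClosure K) c) =
      algebraMap (kbar k K) (AlgebraicClosure K) c := fun c =>
    inertia_const hV hσ (mem_algebraicClosure_iff.1 c.2)
  have hσG : ∀ l, σ (evP x (G l)) = evP x (G l) := by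
    intro l
    unfold evP
    rw [aeval_pol, map_sum]
    refine Finset.sum_congr rfl fun q _ => ?_
    rw [map_mul, hσc, Finsupp.prod, map_prod]
    congr 1
    refine Finset.prod_congr rfl fun v _ => ?_
    rw [map_pow, σ.commutes]
  refine unit_crit hV hσ (b := b) (N := p) ?_ ?_ hp ?_
  · exact hb (σ : AlgebraicClosure K →+* AlgebraicClosure K) hσc (fun v => σ.commutes (x v))
  · change V.valuation (evP x (G i)) = _ * V.valuation (evP x (G j)) at hval
    rw [← hw, map_mul, map_pow] at hval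
    have h1 : V.valuation (evP x (G j)) ≠ 0 := (Valuation.ne_zero_iff _).2 (hG0 j)
    have h2 := mul_right_cancel₀ h1 hval
    exact (pow_left_inj₀ zero_le zero_le hp.ne').1 h2
  · have h1 : w ^ p = evP x (G i) / evP x (G j) := by
      rw [← hw, mul_div_cancel_right₀ _ (hG0 j)]
    rw [h1, map_div₀, hσG, hσG]

end kur

end Pool.Agent.BT
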