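import Pool.Agent.Helper13.BT.K1

/-!
# Project BERTINI / TQ, block K: roots of quotients of factors of two different blocks are unramified
-/

universe u v

namespace Pool.Agent.BT

open MvPolynomial Pool.Agent.Helper91.Sect

/-- The value of `G` at every place is a `p`-th power times the `n`-th power of the value of the largest
coordinate. -/
def ValOK {R : Type u} (Ω : Type v) [Field R] [Field Ω] [Algebra R Ω] {N n : ℕ}
    (x : Fin (N + 2) → Ω) (p : ℕ) (G : MonV (N + 2) n → R) : Prop :=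
  aeval x (pol G) ≠ 0 ∧ ∀ V : ValuationSubring Ω, (∀ c : R, algebraMap R Ω c ∈ V) →
    ∀ b₀ : Ω, (b₀ = 1 ∨ ∃ v, b₀ = x v) → 1 ≤ V.valuation b₀ →
    (∀ v, V.valuation (x v) ≤ V.valuation b₀) →
    ∃ b : Ω, (∀ σ : Ω →+* Ω, (∀ c : R, σ (algebraMap R Ω c) = algebraMap R Ω c) →
        (∀ v, σ (x v) = x v) → σ b = b) ∧
      V.valuation (aeval x (pol G)) = V.valuation b ^ p * V.valuation b₀ ^ n

section val

variable {R : Type u} {Ω : Type v} [Field R] [Field Ω] [Algebra R Ω] {N : ℕ}
  {x : Fin (N + 2) → Ω}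

/-- the factors of a block -/
theorem valOK_of_block {n d nf p r M a b : ℕ} (hp : p ≠ 0) (hd : d = p * r) (hnM : n ≤ M)
    {U : Type} [Fintype U]
    {e : U → ℕ} {f : MonV (N + 2) nf → R} {rel : ∀ u, MonV (N + 2) (e u) → R}
    (hf : aeval x (pol f) = 0) (hrel : ∀ u, aeval x (pol (rel u)) = 0)
    {G : Fin d → MonV (N + 2) n → R} {W : MonV (N + 2) (r * n) → R}
    {H : MonV (N + 2) a → R} {H' : U → MonV (N + 2) b → R} {T : R} (hT : T ≠ 0)
    (hprod : ∏ i, pol (G i) = C T * pol W ^ p + comb f rel H H')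
    (hcop : ∀ i j, i ≠ j → Cop (G i) (G j) f rel M)
    (hG0 : ∀ i, aeval x (pol (G i)) ≠ 0) (i : Fin d) : ValOK Ω x p (G i) := by
  classical
  refine ⟨hG0 i, fun V hV b₀ hb h1 hx => ?_⟩
  have hb0 : V.valuation b₀ ≠ 0 := (lt_of_lt_of_le zero_lt_one h1).ne'
  have hp1 := congrArg (aeval x) hprod
  rw [map_prod, map_add, map_mul, aeval_comb hf hrel, add_zero, map_pow, aeval_C] at hp1
  set w := aeval x (pol W) with hw
  have hTv : V.valuation (algebraMap R Ω T) = 1 := by
    refine le_antisymm ((V.valuation_le_one_iff _).2 (hV _)) ?_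
    have h2 := (V.valuation_le_one_iff _).2 (hV T⁻¹)
    rw [map_inv₀, map_inv₀] at h2
    have h3 : V.valuation (algebraMap R Ω T) ≠ 0 :=
      (Valuation.ne_zero_iff _).2 (by rwa [Ne, map_eq_zero])
    exact (inv_le_one₀ (zero_lt_iff.2 h3)).1 h2
  have hp2 : ∏ i, V.valuation (aeval x (pol (G i))) = V.valuation w ^ p := by
    rw [← map_prod, hp1, map_mul, map_pow, hTv, one_mul]
  have hw0 : V.valuation w ≠ 0 := by
    intro h0
    rw [h0, zero_pow hp] at hp2
    obtain ⟨l, -, hl⟩ := Finset.prod_eq_zero_iff.1 hp2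
    exact hG0 l ((Valuation.zero_iff _).1 hl)
  have hfix : ∀ σ : Ω →+* Ω, (∀ c : R, σ (algebraMap R Ω c) = algebraMap R Ω c) →
      (∀ v, σ (x v) = x v) → σ b₀ = b₀ ∧ σ w = w := by
    intro σ hσ hσx
    constructor
    · rcases hb with rfl | ⟨v, rfl⟩
      · exact map_one σ
      · exact hσx v
    · rw [hw, aeval_pol, map_sum]
      refine Finset.sum_congr rfl fun q _ => ?_
      rw [map_mul, hσ, Finsupp.prod, map_prod]
      congr 1
      refine Finset.prod_congr rfl fun v _ => ?_
      rw [map_pow, hσx]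
  -- the product of the values when one is small
  have hsmall : ∀ l : Fin d, V.valuation (aeval x (pol (G l))) ≠ V.valuation b₀ ^ n →
      ∀ l', l' ≠ l → V.valuation (aeval x (pol (G l'))) = V.valuation b₀ ^ n := by
    intro l hl l' hl'
    rcases val_eq_or hV h1 hx hb hnM (hcop l l' (Ne.symm hl')) hf hrel with h | h
    · exact absurd h hl
    · exact h
  have hprodl : ∀ l : Fin d, V.valuation (aeval x (pol (G l))) ≠ V.valuation b₀ ^ n →
      V.valuation (aeval x (pol (G l))) * (V.valuation b₀ ^ n) ^ (d - 1) =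
        V.valuation w ^ p := by
    intro l hl
    rw [← hp2, ← Finset.mul_prod_erase Finset.univ _ (Finset.mem_univ l)]
    congr 1
    rw [Finset.prod_congr rfl (fun l' hl' => hsmall l hl l' (Finset.mem_erase.1 hl').1),
      Finset.prod_const, Finset.card_erase_of_mem (Finset.mem_univ l), Finset.card_univ,
      Fintype.card_fin]
  have hd0 : 0 < d := lt_of_le_of_lt (Nat.zero_le _) i.2
  have hpow : (V.valuation b₀ ^ n) ^ (d - 1) * V.valuation b₀ ^ n =
      (V.valuation b₀ ^ (r * n)) ^ p := by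
    rw [← pow_succ, Nat.sub_add_cancel hd0, ← pow_mul, ← pow_mul, hd]
    congr 1
    ring
  by_cases hi : V.valuation (aeval x (pol (G i))) = V.valuation b₀ ^ n
  · refine ⟨1, fun σ _ _ => map_one σ, ?_⟩
    rw [hi, map_one, one_pow, one_mul]
  · refine ⟨w / b₀ ^ (r * n), fun σ hσ hσx => ?_, ?_⟩
    · rw [map_div₀, map_pow, (hfix σ hσ hσx).1, (hfix σ hσ hσx).2]
    · have h2 := hprodl i hi
      rw [map_div₀, map_pow, div_pow, ← h2, ← hpow]
      field_simp

end val

section kur

variable {k K : Type u} [Field k] [Field K] [Algebra k K]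

/-- **Roots of quotients are unramified.** -/
theorem root_mem_Kur_of {N n p : ℕ} {x : Fin (N + 2) → K} (hp : 0 < p)
    {G G' : MonV (N + 2) n → kbar k K}
    (hG : ValOK (AlgebraicClosure K) (fun v => algebraMap K (AlgebraicClosure K) (x v)) p G)
    (hG' : ValOK (AlgebraicClosure K) (fun v => algebraMap K (AlgebraicClosure K) (x v)) p G')
    {w : AlgebraicClosure K} (hw : w ^ p * evP x G' = evP x G) : w ∈ Kur k K := by
  intro V hV σ hσ
  have hV' : ∀ c : kbar k K, algebraMap (kbar k K) (AlgebraicClosure K) c ∈ V := fun c =>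
    const_mem hV (mem_algebraicClosure_iff.1 c.2)
  obtain ⟨b₀, hb, h1, hx⟩ := exists_b0 V fun v => algebraMap K (AlgebraicClosure K) (x v)
  obtain ⟨b, hbf, hbv⟩ := hG.2 V hV' b₀ hb h1 hx
  obtain ⟨b', hbf', hbv'⟩ := hG'.2 V hV' b₀ hb h1 hx
  change V.valuation (evP x G) = _ at hbv
  change V.valuation (evP x G') = _ at hbv'
  have hG0 : evP x G' ≠ 0 := hG'.1
  have hσc : ∀ c : kbar k K, σ (algebraMap (kbar k K) (AlgebraicClosure K) c) =
      algebraMap (kbar k K) (AlgebraicClosure K) c := fun c =>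
    inertia_const hV hσ (mem_algebraicClosure_iff.1 c.2)
  have hσG : ∀ g : MonV (N + 2) n → kbar k K, σ (evP x g) = evP x g := by
    intro g
    unfold evP
    rw [aeval_pol, map_sum]
    refine Finset.sum_congr rfl fun q _ => ?_
    rw [map_mul, hσc, Finsupp.prod, map_prod]
    congr 1
    refine Finset.prod_congr rfl fun v _ => ?_
    rw [map_pow, σ.commutes]
  refine unit_crit hV hσ (b := b / b') (N := p) ?_ ?_ hp ?_
  · rw [map_div₀]
    rw [show σ b = b from hbf (σ : AlgebraicClosure K →+* AlgebraicClosure K) hσc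
      (fun v => σ.commutes (x v)), show σ b' = b' from
      hbf' (σ : AlgebraicClosure K →+* AlgebraicClosure K) hσc (fun v => σ.commutes (x v))]
  · have h2 : V.valuation (evP x G') ≠ 0 := (Valuation.ne_zero_iff _).2 hG0
    have h3 : V.valuation b₀ ^ n ≠ 0 := pow_ne_zero _ (lt_of_lt_of_le zero_lt_one h1).ne'
    have h4 : V.valuation b' ^ p ≠ 0 := by
      intro h0
      rw [hbv', h0, zero_mul] at h2
      exact h2 rfl
    have h5 := hbv
    rw [← hw, map_mul, map_pow, hbv', ← mul_assoc] at h5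
    have h6 := mul_right_cancel₀ h3 h5
    have h7 : V.valuation w ^ p = V.valuation (b / b') ^ p := by
      rw [map_div₀, div_pow, eq_div_iff h4]
      exact h6
    exact (pow_left_inj₀ zero_le zero_le hp.ne').1 h7
  · have h1 : w ^ p = evP x G / evP x G' := by
      rw [← hw, mul_div_cancel_right₀ _ hG0]
    rw [h1, map_div₀, hσG, hσG]

end kur

end Pool.Agent.BT
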