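import Pool.Agent.Helper13.BT.K1
import Pool.Agent.Helper13.BT.DDefs
import Pool.Agent.Helper13.BE.C2
import Pool.Agent.Helper13.PL.L4

/-!
# Project BERTINI, block L: inertia at good places fixes `(P / Q) ^ (1 / p)`, one pair
-/

universe u v

set_option linter.unusedSectionVars false

namespace Pool.Agent.BT

open Polynomial Pool.Agent.Helper91.Sect Pool.Agent.LT Pool.Agent.GC Pool.Agent.SC

section conv

variable {k : Type u} [Field k]

theorem polU_coeff {M : ℕ} (c : Fin (M + 1) → k) (i : Fin (M + 1)) : (polU c).coeff i = c i :=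
  PL.polU_coeff c i

theorem polU_coeff_mem {A : Type v} [Semiring A] (φ : k →+* A) (S : Subsemiring A) {M : ℕ}
    {c : Fin (M + 1) → k} (h : ∀ i, φ (c i) ∈ S) (i : ℕ) : φ ((polU c).coeff i) ∈ S :=
  PL.polU_coeff_mem φ S h i

theorem polU_natDegree {M : ℕ} {c : Fin (M + 1) → k} (h : c (Fin.last M) ≠ 0) :
    (polU c).natDegree = M :=
  PL.polU_natDegree h

theorem polU_leadingCoeff {M : ℕ} {c : Fin (M + 1) → k} (h : c (Fin.last M) ≠ 0) :
    (polU c).leadingCoeff = c (Fin.last M) :=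
  PL.polU_leadingCoeff h

theorem polYX_coeff_mem {A : Type v} [Semiring A] (φ : k →+* A) (S : Subsemiring A) {m n : ℕ}
    {a : Fin (m + 1) → Fin (n + 1) → k} (h : ∀ j i, φ (a j i) ∈ S) (i j : ℕ) :
    φ (((polYX a).coeff i).coeff j) ∈ S := by
  unfold polYX
  rw [finsetSum_coeff, finsetSum_coeff, map_sum]
  refine S.sum_mem fun l _ => ?_
  rw [coeff_C_mul_X_pow]
  split_ifs
  · exact polU_coeff_mem φ S (h l) j
  · rw [coeff_zero, map_zero]
    exact S.zero_mem

theorem monYX_coeff_mem {A : Type v} [Semiring A] (φ : k →+* A) (S : Subsemiring A) {ρ n : ℕ}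
    {s : Fin ρ → Fin (n + 1) → k} (h : ∀ j i, φ (s j i) ∈ S) (i j : ℕ) :
    φ (((monYX s).coeff i).coeff j) ∈ S := by
  unfold monYX
  rw [coeff_add, coeff_add, map_add]
  refine S.add_mem ?_ ?_
  · rw [coeff_X_pow]
    split_ifs
    · rw [coeff_one]
      split_ifs
      · rw [map_one]
        exact S.one_mem
      · rw [map_zero]
        exact S.zero_mem
    · rw [coeff_zero, map_zero]
      exact S.zero_mem
  · rw [finsetSum_coeff, finsetSum_coeff, map_sum]
    refine S.sum_mem fun l _ => ?_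
    rw [coeff_C_mul_X_pow]
    split_ifs
    · exact polU_coeff_mem φ S (h l) j
    · rw [coeff_zero, map_zero]
      exact S.zero_mem

theorem monYX_monic {ρ n : ℕ} (s : Fin ρ → Fin (n + 1) → k) : (monYX s).Monic := by
  unfold monYX
  apply monic_X_pow_add
  exact degree_sum_fin_lt _

/-- values of polynomials in `x` -/
theorem aeval_polX {K : Type v} [Field K] [Algebra k K] {N M : ℕ} (x : Fin (N + 2) → K)
    (c : Fin (M + 1) → k) :
    MvPolynomial.aeval x (polX c) = aeval (x 0) (polU c) := by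
  unfold polX polU
  rw [map_sum, map_sum]
  refine Finset.sum_congr rfl fun i _ => ?_
  rw [map_mul, map_mul, map_pow, map_pow, MvPolynomial.aeval_X, MvPolynomial.aeval_C, aeval_C,
    aeval_X]

/-- values of the equations of the coordinates -/
theorem aeval_subV {K : Type v} [Field K] [Algebra k K] {N : ℕ} (x : Fin (N + 2) → K)
    (v : Fin (N + 2)) (P : k[X][X]) :
    MvPolynomial.aeval x (subV N v P) =
      eval₂ (aeval (x 0) : k[X] →ₐ[k] K).toRingHom (x v) P := by
  unfold subV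
  rw [coe_eval₂RingHom]
  have h1 := hom_eval₂ P
    (aeval (MvPolynomial.X 0) : k[X] →ₐ[k] MvPolynomial (Fin (N + 2)) k).toRingHom
    (MvPolynomial.aeval x : MvPolynomial (Fin (N + 2)) k →ₐ[k] K).toRingHom (MvPolynomial.X v)
  have h2 : ((MvPolynomial.aeval x : MvPolynomial (Fin (N + 2)) k →ₐ[k] K).toRingHom).comp
      (aeval (MvPolynomial.X 0) : k[X] →ₐ[k] MvPolynomial (Fin (N + 2)) k).toRingHom =
      (aeval (x 0) : k[X] →ₐ[k] K).toRingHom := by
    apply RingHom.ext
    intro r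
    change MvPolynomial.aeval x (aeval (MvPolynomial.X 0) r) = aeval (x 0) r
    rw [← aeval_algHom_apply, MvPolynomial.aeval_X]
  rw [h2] at h1
  have h3 : (MvPolynomial.aeval x : MvPolynomial (Fin (N + 2)) k →ₐ[k] K).toRingHom
      (MvPolynomial.X v) = x v := MvPolynomial.aeval_X x v
  rw [h3] at h1
  exact h1

end conv

/-- The equations of the coordinates and the discriminant. -/
structure DiscV {k : Type u} [Field k] {N M₁ M₂ : ℕ} {ρ : Fin (N + 2) → ℕ}
    (s : ∀ v, Fin (ρ v) → Fin (M₂ + 1) → k) (R V V' : Fin (M₁ + 1) → k)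
    (A B : Fin (N + 2) → Fin (M₂ + 1) → Fin (M₂ + 1) → k) (e₁ : ℕ) : Prop where
  deg : 1 ≤ M₁
  lead : R (Fin.last M₁) ≠ 0
  sep : polU V * polU R + polU V' * derivative (polU R) = 1
  eq : ∀ v, polYX (A v) * monYX (s v) + polYX (B v) * derivative (monYX (s v)) =
    C (polU R ^ e₁)

/-- The equations of the coordinates are good at `W`. -/
structure GoodV {k C : Type u} [Field k] [Field C] [Algebra k C] (W : ValuationSubring C)
    {N M₁ M₂ : ℕ} {ρ : Fin (N + 2) → ℕ} (s : ∀ v, Fin (ρ v) → Fin (M₂ + 1) → k)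
    (R V V' : Fin (M₁ + 1) → k) (B : Fin (N + 2) → Fin (M₂ + 1) → Fin (M₂ + 1) → k) : Prop where
  s_mem : ∀ v j i, algebraMap k C (s v j i) ∈ W
  R_mem : ∀ i, algebraMap k C (R i) ∈ W
  R_lead : (algebraMap k C (R (Fin.last M₁)))⁻¹ ∈ W
  V_mem : ∀ i, algebraMap k C (V i) ∈ W
  V'_mem : ∀ i, algebraMap k C (V' i) ∈ W
  B_mem : ∀ v j i, algebraMap k C (B v j i) ∈ W

section gauss

variable {k₁ k K : Type u} [Field k₁] [CharZero k₁] [Field k] [Field K]
  [Algebra k₁ k] [Algebra k K] [Algebra k₁ K] [IsScalarTower k₁ k K]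

/-- values in `UU` -/
theorem coe_aeval_UU {m n : ℕ} (x : Fin m → K) (g : MonV m n → kbar k K) :
    ((MvPolynomial.aeval (fun v => toU (k := k) (K := K) (x v)) (pol g) : UU k K) :
      AlgebraicClosure K) = evP x g := by
  unfold evP
  rw [aeval_pol, aeval_pol]
  change (UU k K).val _ = _
  rw [map_sum]
  refine Finset.sum_congr rfl fun q _ => ?_
  rw [map_mul, Finsupp.prod, Finsupp.prod, map_prod]
  rfl

theorem toU_zero {m n : ℕ} {x : Fin m → K} {g : MonV m n → k}
    (h : MvPolynomial.aeval x (pol g) = 0) :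
    MvPolynomial.aeval (fun v => toU (k := k) (K := K) (x v))
      (pol (fun q => algebraMap k (kbar k K) (g q))) = (0 : UU k K) := by
  have h1 := congrArg (toU (k := k) (K := K)) h
  rw [aeval_pol, map_sum, map_zero] at h1
  rw [aeval_pol, ← h1]
  refine Finset.sum_congr rfl fun q _ => ?_
  rw [map_mul, Finsupp.prod, Finsupp.prod, map_prod, PL.coe_toU_const]
  congr 1
  refine Finset.prod_congr rfl fun v _ => ?_
  rw [map_pow]

/-- values of polynomials with integral coefficients -/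
theorem aeval_pol_mem {R : Type u} {Ω : Type v} [Field R] [Field Ω] [Algebra R Ω]
    {P : ValuationSubring Ω} {m n : ℕ} {g : MonV m n → R} {x : Fin m → Ω}
    (hg : ∀ q, algebraMap R Ω (g q) ∈ P) (hx : ∀ v, x v ∈ P) :
    MvPolynomial.aeval x (pol g) ∈ P := by
  rw [aeval_pol]
  refine P.toSubring.sum_mem fun q _ => P.toSubring.mul_mem (hg q) ?_
  rw [Finsupp.prod]
  exact P.toSubring.prod_mem fun v _ => P.toSubring.pow_mem (hx v) _

/-- `G (x)` is a unit -/
theorem val_eq_one {W : ValuationSubring (kbar k K)} {t' : kbar k K}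
    (hb : Base (algebraicClosure k₁ (kbar k K)) W t') {N : ℕ} {x : Fin (N + 2) → K}
    {V : ValuationSubring (UU k K)}
    (hV : Gauss (algebraicClosure k₁ (kbar k K)) W (toU (k := k) (K := K) (x 0)) V)
    (hx : ∀ v, toU (k := k) (K := K) (x v) ∈ V)
    {d n M M' M₃ : ℕ} {U : Type} [Fintype U] {e : U → ℕ} {f : MonV (N + 2) d → k}
    {rel : ∀ u, MonV (N + 2) (e u) → k} (hf : MvPolynomial.aeval x (pol f) = 0)
    (hrel : ∀ u, MvPolynomial.aeval x (pol (rel u)) = 0)
    {G : MonV (N + 2) n → kbar k K} {D : MonV (N + 2) M → kbar k K}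
    {D' : MonV (N + 2) M' → kbar k K} {D'' : U → MonV (N + 2) M' → kbar k K}
    {c : Fin (M₃ + 1) → kbar k K}
    (hnrm : pol D * pol G + comb (fun q => algebraMap k (kbar k K) (f q))
      (fun u q => algebraMap k (kbar k K) (rel u q)) D' D'' = polX c)
    (hG : ∀ q, G q ∈ W) (hD : ∀ q, D q ∈ W) (hc : ∃ l, c l ≠ 0 ∧ (c l)⁻¹ ∈ W) :
    V.valuation (MvPolynomial.aeval (fun v => toU (k := k) (K := K) (x v)) (pol G)) = 1 := by
  have hac : IsAlgClosed (algebraicClosure k₁ (kbar k K)) :=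
    (inferInstance : IsAlgClosure k₁ (algebraicClosure k₁ (kbar k K))).isAlgClosed
  have h1 := congrArg (MvPolynomial.aeval (fun v => toU (k := k) (K := K) (x v))) hnrm
  rw [map_add, map_mul, aeval_comb (toU_zero hf) (fun u => toU_zero (hrel u)), add_zero,
    aeval_polX] at h1
  have h3 : ¬ V.valuation (aeval (toU (k := k) (K := K) (x 0)) (polU c)) < 1 := by
    intro h4
    have h5 := (Gauss.val_poly_lt hb hV (polU c) 1 one_ne_zero).1 (by rw [map_one, map_one]; exact h4)
    obtain ⟨l, hl0, hl⟩ := hc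
    have h6 := h5 l
    rw [map_one, polU_coeff] at h6
    have h7 := (W.valuation_le_one_iff _).2 hl
    rw [map_inv₀] at h7
    have h8 : 1 ≤ W.valuation (c l) :=
      (inv_le_one₀ (zero_lt_iff.2 ((Valuation.ne_zero_iff _).2 hl0))).1 h7
    exact absurd h6 (not_lt.2 h8)
  rw [← h1, map_mul, not_lt] at h3
  have hDv : V.valuation (MvPolynomial.aeval (fun v => toU (k := k) (K := K) (x v)) (pol D)) ≤ 1 :=
    (V.valuation_le_one_iff _).2 (aeval_pol_mem (fun q => (hV.mem_iff _).2 (hD q)) hx)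
  have hGv : V.valuation (MvPolynomial.aeval (fun v => toU (k := k) (K := K) (x v)) (pol G)) ≤ 1 :=
    (V.valuation_le_one_iff _).2 (aeval_pol_mem (fun q => (hV.mem_iff _).2 (hG q)) hx)
  refine le_antisymm hGv (h3.trans ?_)
  calc _ ≤ 1 * V.valuation (MvPolynomial.aeval (fun v => toU (k := k) (K := K) (x v)) (pol G)) :=
        mul_le_mul' hDv le_rfl
    _ = _ := one_mul _

/-- **Inertia at good places fixes `(P / Q) ^ (1 / p)`.** -/
theorem root_inert (hF₁ : ∃ S : Finset k₁, Subfield.closure (S : Set k₁) = ⊤)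
    (t : k) (hfin : FiniteDimensional (IntermediateField.adjoin k₁ {t}) k)
    {N : ℕ} {x : Fin (N + 2) → K} (hx : Transcendental k (x 0))
    (hgen : IntermediateField.adjoin k (Set.range x) = ⊤)
    {d : ℕ} {U : Type} [Fintype U] {e : U → ℕ} {f : MonV (N + 2) d → k}
    {rel : ∀ u, MonV (N + 2) (e u) → k} (hf : MvPolynomial.aeval x (pol f) = 0)
    (hrel : ∀ u, MvPolynomial.aeval x (pol (rel u)) = 0)
    {M₁ M₂ : ℕ} {ρ : Fin (N + 2) → ℕ} {S : ∀ v, Fin (ρ v) → Fin (M₂ + 1) → k}
    {R V₁ V₂ : Fin (M₁ + 1) → k} {A B : Fin (N + 2) → Fin (M₂ + 1) → Fin (M₂ + 1) → k} {e₁ : ℕ}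
    (hcert : DiscV S R V₁ V₂ A B e₁)
    (hroot : ∀ v, eval₂ (aeval (x 0) : k[X] →ₐ[k] K).toRingHom (x v) (monYX (S v)) = 0)
    (s : GaloisSection k K) {p n n' : ℕ} (hp : p ≠ 0)
    {W : ValuationSubring (kbar k K)} (hW : W ≠ ⊤)
    (hk₁ : ∀ c : k₁, algebraMap k₁ (kbar k K) c ∈ W)
    (hgood : GoodV W S R V₁ V₂ B)
    {P : MonV (N + 2) n → kbar k K} {Q : MonV (N + 2) n' → kbar k K} {M M' M₃ : ℕ}
    {D : MonV (N + 2) M → kbar k K} {D' : MonV (N + 2) M' → kbar k K}
    {D'' : U → MonV (N + 2) M' → kbar k K} {c : Fin (M₃ + 1) → kbar k K}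
    {E : MonV (N + 2) M → kbar k K} {E' : MonV (N + 2) M' → kbar k K}
    {E'' : U → MonV (N + 2) M' → kbar k K} {c' : Fin (M₃ + 1) → kbar k K}
    (hnP : pol D * pol P + comb (fun q => algebraMap k (kbar k K) (f q))
      (fun u q => algebraMap k (kbar k K) (rel u q)) D' D'' = polX c)
    (hnQ : pol E * pol Q + comb (fun q => algebraMap k (kbar k K) (f q))
      (fun u q => algebraMap k (kbar k K) (rel u q)) E' E'' = polX c')
    (hP : ∀ q, P q ∈ W) (hD : ∀ q, D q ∈ W) (hc : ∃ l, c l ≠ 0 ∧ (c l)⁻¹ ∈ W)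
    (hQ : ∀ q, Q q ∈ W) (hE : ∀ q, E q ∈ W) (hc' : ∃ l, c' l ≠ 0 ∧ (c' l)⁻¹ ∈ W)
    {w : AlgebraicClosure K} (hwK : w ∈ Kur k K) (hw : w ^ p * evP x Q = evP x P)
    {τ : Gk k K} (hτ : InInert W τ) (hτP : ∀ q, τ (P q) = P q) (hτQ : ∀ q, τ (Q q) = Q q)
    {σ : AlgebraicClosure K ≃ₐ[K] AlgebraicClosure K} (hσ : ∀ w : Kur k K, σ w = s.toHom τ w) :
    σ w = w := by
  classical
  have hk0 : CharZero k := charZero_of_injective_algebraMap (algebraMap k₁ k).injective
  have hkb0 : CharZero (kbar k K) :=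
    charZero_of_injective_algebraMap (algebraMap k (kbar k K)).injective
  have hU0 : CharZero (UU k K) :=
    charZero_of_injective_algebraMap (algebraMap (kbar k K) (UU k K)).injective
  have hac : IsAlgClosed (algebraicClosure k₁ (kbar k K)) :=
    (inferInstance : IsAlgClosure k₁ (algebraicClosure k₁ (kbar k K))).isAlgClosed
  have hres : CharZero (IsLocalRing.ResidueField W) := by
    let φ : k₁ →+* W := (algebraMap k₁ (kbar k K)).codRestrict W.toSubring hk₁
    exact charZero_of_injective_ringHom ((IsLocalRing.residue W).comp φ).injective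
  have hpinv : (p : kbar k K)⁻¹ ∈ W := by
    have h1 := hk₁ ((p : k₁)⁻¹)
    rwa [map_inv₀, map_natCast] at h1
  -- the valuation ring of `UU`
  obtain ⟨t', hb⟩ := exists_base' (K := K) t hfin hW hk₁
  obtain ⟨V, hV⟩ := exists_gauss (N := UU k K) hb (PL.transcendental_toU hx)
  -- the monic polynomials
  have hWF : ∀ v i j, algebraMap k (kbar k K) (((monYX (S v)).coeff i).coeff j) ∈ W :=
    fun v => monYX_coeff_mem _ W.toSubring.toSubsemiring (hgood.s_mem v)
  have hWB : ∀ v i j, algebraMap k (kbar k K) (((polYX (B v)).coeff i).coeff j) ∈ W :=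
    fun v => polYX_coeff_mem _ W.toSubring.toSubsemiring (hgood.B_mem v)
  have hWQ : ∀ (_ : Fin (N + 2)) i, algebraMap k (kbar k K) ((1 : k[X]).coeff i) ∈ W := by
    intro _ i
    rw [coeff_one]
    split_ifs
    · rw [map_one]; exact W.one_mem
    · rw [map_zero]; exact W.zero_mem
  have hRsep : (polU R).Separable := ⟨polU V₁, polU V₂, hcert.sep⟩
  have hxV : ∀ v, toU (k := k) (K := K) (x v) ∈ V := fun v =>
    PL.y_mem hV (monYX_monic (S v)) (hroot v) (hWF v)
  -- the root
  have hwU : w ∈ UU k K := (mem_UU k K).2 hwK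
  set w₁ : UU k K := ⟨w, hwU⟩ with hw₁
  have hvP := val_eq_one hb hV hxV hf hrel hnP hP hD hc
  have hvQ := val_eq_one hb hV hxV hf hrel hnQ hQ hE hc'
  have hwp : w₁ ^ p * MvPolynomial.aeval (fun v => toU (k := k) (K := K) (x v)) (pol Q) =
      MvPolynomial.aeval (fun v => toU (k := k) (K := K) (x v)) (pol P) := by
    apply Subtype.ext
    change w ^ p * ((MvPolynomial.aeval (fun v => toU (k := k) (K := K) (x v)) (pol Q) :
      UU k K) : AlgebraicClosure K) = _
    rw [coe_aeval_UU, coe_aeval_UU, hw]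
  have hwv : V.valuation w₁ = 1 := by
    have h1 := congrArg V.valuation hwp
    rw [map_mul, map_pow, hvP, hvQ, mul_one] at h1
    exact (pow_eq_one_iff_of_nonneg zero_le hp).1 h1
  have hwV : w₁ ∈ V := (V.valuation_le_one_iff _).1 hwv.le
  have hRd : 1 ≤ (polU R).natDegree := by
    rw [polU_natDegree hcert.lead]
    exact hcert.deg
  have hgr : GoodRed W (polU R) := PL.goodRed_of_cert hres hRd hcert.sep
    (polU_coeff_mem _ W.toSubring.toSubsemiring hgood.R_mem) (by
      rw [polU_leadingCoeff hcert.lead]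
      exact hgood.R_lead)
    (polU_coeff_mem _ W.toSubring.toSubsemiring hgood.V_mem)
    (polU_coeff_mem _ W.toSubring.toSubsemiring hgood.V'_mem)
  have hgen' : IntermediateField.adjoin k (insert (x 0) (Set.range x)) = ⊤ := by
    rw [Set.insert_eq_of_mem (Set.mem_range_self 0)]
    exact hgen
  have h1 := BE.inert_trivial_fam hF₁ t hfin (ι := Fin (N + 2)) hx hgen'
    (fun v => monYX_monic (S v)) hroot hcert.eq (Q := fun _ => 1) (N := fun _ => e₁)
    (fun v => mul_one (polU R ^ e₁)) hRd hRsep s hW hk₁ hgr hWF hWB hWQ hV hτ hwV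
  have hw0 : w₁ ≠ 0 := by
    intro h
    rw [h, map_zero] at hwv
    exact zero_ne_one hwv
  have hQ0 : evP x Q ≠ 0 := by
    intro h
    rw [← coe_aeval_UU] at h
    have h2 : (MvPolynomial.aeval (fun v => toU (k := k) (K := K) (x v)) (pol Q) : UU k K) = 0 :=
      Subtype.ext h
    rw [h2, map_zero] at hvQ
    exact zero_ne_one hvQ
  -- the action
  have hact : ((actU s τ w₁ : UU k K) : AlgebraicClosure K) = σ w := by
    rw [coe_actU, ← hσ]
  have hext : ∀ {n₀ : ℕ} (g : MonV (N + 2) n₀ → kbar k K), (∀ q, τ (g q) = g q) →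
      σ (evP x g) = evP x g := by
    intro n₀ g hg
    unfold evP
    rw [aeval_pol, map_sum]
    refine Finset.sum_congr rfl fun q _ => ?_
    have h2 : σ (algebraMap (kbar k K) (AlgebraicClosure K) (g q)) =
        algebraMap (kbar k K) (AlgebraicClosure K) (g q) := by
      have h3 := ext_const s hσ (g q)
      rw [hg] at h3
      exact h3
    rw [map_mul, h2, Finsupp.prod, map_prod]
    congr 1
    refine Finset.prod_congr rfl fun v _ => ?_
    rw [map_pow, σ.commutes]
  have hpow : (σ w) ^ p = w ^ p := by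
    have h2 := congrArg σ hw
    rw [map_mul, map_pow, hext P hτP, hext Q hτQ] at h2
    exact mul_right_cancel₀ hQ0 (h2.trans hw.symm)
  have hζ : (actU s τ w₁ / w₁) ^ p = 1 := by
    rw [div_pow]
    have h2 : (actU s τ w₁) ^ p = w₁ ^ p := by
      apply Subtype.ext
      change ((actU s τ w₁ : UU k K) : AlgebraicClosure K) ^ p = w ^ p
      rw [hact, hpow]
    rw [h2]
    exact div_self (pow_ne_zero _ hw0)
  have h3 : V.valuation (actU s τ w₁ / w₁ - 1) < 1 := by
    have h4 : actU s τ w₁ / w₁ - 1 = (actU s τ w₁ - w₁) / w₁ := by field_simp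
    rw [h4, map_div₀, hwv, div_one]
    exact (V.mem_nonunits_iff).1 h1
  have hpV : (p : UU k K)⁻¹ ∈ V := by
    have h4 := (hV.mem_iff _).2 hpinv
    rwa [map_inv₀, map_natCast] at h4
  have h4 := PL.mu_eq_one hpV (Nat.cast_ne_zero.2 hp) hζ h3
  rw [div_eq_one_iff_eq hw0] at h4
  rw [← hact, h4]

end gauss

end Pool.Agent.BT
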