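import Pool.Agent.Helper13.BT.L1
import Pool.Agent.Helper37.BT.Basic
import Pool.Agent.Helper10.BT.A6
import Pool.Agent.Helper10.BT.Pol
import Pool.Agent.Helper10.PL.OE6

/-!
# Project BERTINI: the constants attached to a curve with a section, as a property of the curve
-/

universe u v

set_option linter.unusedSectionVars false

namespace Pool.Agent.BT

open Polynomial Pool.Agent.Helper37.UL Pool.Agent.Helper91.Sect Pool.Agent.LT Pool.Agent.GC
  Pool.Agent.SC

section defs

/-- The constants `z i j` and the inertia groups at good places. -/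
def LevIV (k₁ : Type u) {k C : Type u} [Field k₁] [Field k] [Field C] [Algebra k₁ k] [Algebra k C]
    {N df d n M M₃ : ℕ} {U : Type} [Fintype U] {e : U → ℕ} (f : MonV (N + 2) df → k)
    (rel : ∀ u, MonV (N + 2) (e u) → k) (G : Fin d → MonV (N + 2) n → C)
    (D : Fin d → MonV (N + 2) M → C) (c : Fin d → Fin (M₃ + 1) → C) (z : Fin d → Fin d → C) :
    Prop :=
  ∀ {M₁ M₂ m e₁ e₂ : ℕ} {ρ : Fin (N + 2) → ℕ} {S : ∀ v, Fin (ρ v) → Fin (M₂ + 1) → k}
    {R V V' : Fin (M₁ + 1) → k} {A B : Fin (N + 2) → Fin (M₂ + 1) → Fin (M₂ + 1) → k}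
    {H : Fin (N + 2) → MonV (N + 2) m → k} {H' : Fin (N + 2) → U → MonV (N + 2) m → k},
    DiscV S R V V' A B e₁ →
    (∀ v, subV N v (monYX (S v)) ^ e₂ = comb f rel (H v) (H' v)) →
    ∀ P : ValuationSubring C, P ≠ ⊤ → (∀ a : k₁, algebraMap k C (algebraMap k₁ k a) ∈ P) →
    GoodV P S R V V' B →
    ∀ i j, i ≠ j → (∀ q, G i q ∈ P) → (∀ q, G j q ∈ P) → (∀ q, D i q ∈ P) → (∀ q, D j q ∈ P) →
    (∃ l, c i l ≠ 0 ∧ (c i l)⁻¹ ∈ P) → (∃ l, c j l ≠ 0 ∧ (c j l)⁻¹ ∈ P) →
    ∀ σ : C ≃+* C, Inert (algebraMap k C).fieldRange P σ → (∀ q, σ (G i q) = G i q) →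
      (∀ q, σ (G j q) = G j q) → σ (z i j) = z i j

/-- The property of the curve `f = rel = 0` that all certificates have constants `z i j`. -/
def HasLevV (k₁ : Type u) {k : Type u} (C : Type u) [Field k₁] [Field k] [Field C] [Algebra k₁ k]
    [Algebra k C] (p : ℕ) {N d : ℕ} (r : ℕ) {U : Type} [Fintype U] {e : U → ℕ}
    (f : MonV (N + 2) d → k) (rel : ∀ u, MonV (N + 2) (e u) → k) : Prop :=
  ∀ {n M : ℕ}, n ≤ M →
    ∀ {G : Fin d → MonV (N + 2) n → C} {W : MonV (N + 2) (r * n) → C} {a b : ℕ}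
      {H : MonV (N + 2) a → C} {H' : U → MonV (N + 2) b → C} {T : k}, T ≠ 0 →
    ∏ i, pol (G i) = MvPolynomial.C (algebraMap k C T) * pol W ^ p +
      comb (fun q => algebraMap k C (f q)) (fun u q => algebraMap k C (rel u q)) H H' →
    (∀ i j, i ≠ j → Cop (G i) (G j) (fun q => algebraMap k C (f q))
      (fun u q => algebraMap k C (rel u q)) M) →
    ∀ {M₂ M₂' M₃ : ℕ} {D : Fin d → MonV (N + 2) M₂ → C} {D' : Fin d → MonV (N + 2) M₂' → C}
      {D'' : Fin d → U → MonV (N + 2) M₂' → C} {c : Fin d → Fin (M₃ + 1) → C}, (∀ i, c i ≠ 0) →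
    (∀ i, pol (D i) * pol (G i) + comb (fun q => algebraMap k C (f q))
      (fun u q => algebraMap k C (rel u q)) (D' i) (D'' i) = polX (c i)) →
    ∃ z : Fin d → Fin d → C, LevZ p G W T z ∧ LevIV k₁ f rel G D c z

/-- A curve which maps to the curve `f = rel = 0`, over an extension of degree prime to `p`, with a Galois
section. -/
def HasSecV {k : Type u} [Field k] (p : ℕ) {N d : ℕ} {U : Type} {e : U → ℕ}
    (f : MonV (N + 2) d → k) (rel : ∀ u, MonV (N + 2) (e u) → k) : Prop :=
  ∃ (k' : Type u) (_ : Field k') (_ : Algebra k k'), FiniteDimensional k k' ∧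
    ¬ p ∣ Module.finrank k k' ∧ ∃ (K : Type u) (_ : Field K) (_ : Algebra k' K)
      (x : Fin (N + 2) → K), Transcendental k' (x 0) ∧
      MvPolynomial.aeval x (pol fun q => algebraMap k k' (f q)) = 0 ∧
      (∀ u, MvPolynomial.aeval x (pol fun q => algebraMap k k' (rel u q)) = 0) ∧
      Nonempty (GaloisSection k' K)

theorem HasSecV.smul {k : Type u} [Field k] {p : ℕ} {N d : ℕ} {U : Type} {e : U → ℕ}
    {f : MonV (N + 2) d → k} {rel : ∀ u, MonV (N + 2) (e u) → k} (h : HasSecV p f rel) (c : k)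
    (c' : U → k) : HasSecV p (fun q => c * f q) (fun u q => c' u * rel u q) := by
  obtain ⟨k', i1, i2, h1, h2, K, i3, i4, x, hx, hf, hrel, hs⟩ := h
  refine ⟨k', i1, i2, h1, h2, K, i3, i4, x, hx, ?_, fun u => ?_, hs⟩
  · simp only [map_mul]
    rw [pol_smul, map_mul, hf, mul_zero]
  · simp only [map_mul]
    rw [pol_smul, map_mul, hrel, mul_zero]

end defs

section mapring

variable {R : Type u} {R' : Type v} [CommRing R] [CommRing R'] (φ : R →+* R')

theorem map_polU {n : ℕ} (c : Fin (n + 1) → R) : (polU c).map φ = polU fun i => φ (c i) := by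
  unfold polU
  rw [Polynomial.map_sum]
  refine Finset.sum_congr rfl fun i _ => ?_
  rw [Polynomial.map_mul, Polynomial.map_pow, map_C, map_X]

theorem map_polYX {m n : ℕ} (a : Fin (m + 1) → Fin (n + 1) → R) :
    (polYX a).map (mapRingHom φ) = polYX fun j i => φ (a j i) := by
  unfold polYX
  rw [Polynomial.map_sum]
  refine Finset.sum_congr rfl fun i _ => ?_
  rw [Polynomial.map_mul, Polynomial.map_pow, map_C, map_X, coe_mapRingHom, map_polU]

theorem map_monYX {ρ n : ℕ} (s : Fin ρ → Fin (n + 1) → R) :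
    (monYX s).map (mapRingHom φ) = monYX fun j i => φ (s j i) := by
  unfold monYX
  rw [Polynomial.map_add, Polynomial.map_sum, Polynomial.map_pow, map_X]
  congr 1
  refine Finset.sum_congr rfl fun i _ => ?_
  rw [Polynomial.map_mul, Polynomial.map_pow, map_C, map_X, coe_mapRingHom, map_polU]

theorem map_subV {N : ℕ} (v : Fin (N + 2)) (P : R[X][X]) :
    MvPolynomial.map φ (subV N v P) = subV N v (P.map (mapRingHom φ)) := by
  have h : (MvPolynomial.map φ : MvPolynomial (Fin (N + 2)) R →+* _).comp (subV N v) =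
      (subV N v).comp (mapRingHom (mapRingHom φ)) := by
    unfold subV
    refine Polynomial.ringHom_ext (fun a => ?_) ?_
    · rw [RingHom.comp_apply, RingHom.comp_apply, coe_eval₂RingHom, coe_eval₂RingHom, eval₂_C,
        coe_mapRingHom, map_C, eval₂_C]
      change MvPolynomial.map φ (aeval (MvPolynomial.X 0) a) =
        aeval (MvPolynomial.X 0) (mapRingHom φ a)
      rw [coe_mapRingHom, aeval_def, aeval_def, hom_eval₂, eval₂_map, MvPolynomial.map_X]
      congr 1
      ext x
      simp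
    · rw [RingHom.comp_apply, RingHom.comp_apply, coe_eval₂RingHom, coe_eval₂RingHom, eval₂_X,
        coe_mapRingHom, map_X, eval₂_X, MvPolynomial.map_X]
  exact congrArg (fun F : R[X][X] →+* _ => F P) h

end mapring

section mapdisc

variable {k k' : Type u} [Field k] [Field k'] (φ : k →+* k')

theorem DiscV.map {N M₁ M₂ : ℕ} {ρ : Fin (N + 2) → ℕ}
    {s : ∀ v, Fin (ρ v) → Fin (M₂ + 1) → k} {R V V' : Fin (M₁ + 1) → k}
    {A B : Fin (N + 2) → Fin (M₂ + 1) → Fin (M₂ + 1) → k} {e₁ : ℕ} (h : DiscV s R V V' A B e₁) :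
    DiscV (fun v j i => φ (s v j i)) (fun i => φ (R i)) (fun i => φ (V i)) (fun i => φ (V' i))
      (fun v j i => φ (A v j i)) (fun v j i => φ (B v j i)) e₁ := by
  refine ⟨h.deg, ?_, ?_, fun v => ?_⟩
  · intro h0
    exact h.lead ((map_eq_zero φ).1 h0)
  · have h1 := congrArg (Polynomial.map φ) h.sep
    rw [Polynomial.map_add, Polynomial.map_mul, Polynomial.map_mul, ← derivative_map,
      map_polU, map_polU, map_polU, Polynomial.map_one] at h1
    exact h1
  · have h1 := congrArg (Polynomial.map (mapRingHom φ)) (h.eq v)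
    rw [Polynomial.map_add, Polynomial.map_mul, Polynomial.map_mul, ← derivative_map,
      map_polYX, map_polYX, map_monYX, map_C, map_pow, coe_mapRingHom, map_polU] at h1
    exact h1

end mapdisc

end Pool.Agent.BT
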